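import Pool.Agent.TH724.CJ.Conj
import Pool.Agent.H468R2.KA.P_F_perm
import Pool.Agent.H468R2.KA.P_F_top
import Pool.Agent.H468R2.KA.P_F_vt
import Pool.Agent.H468R2.MA.P_T_BF
import Pool.Agent.H468R2.MA.P_T_C
import Pool.Agent.H468R2.MA.P_T_CH
import Pool.Agent.H468R2.MA.P_T_SC
import Pool.Agent.H468R2.MA.P_T_LOC
import Pool.Agent.H468R2.MA.P_T_LOC1

/-!
# The family of diffeomorphisms and the main theorem
-/

set_option autoImplicit false

open Filter Topology Set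
open scoped RealInnerProductSpace ContDiff Manifold

namespace Pool.Agent.TH724.CJ

universe v

/-- The parameters. -/
noncomputable def sV (x : ℕ → ℝ) (n : ℕ) : ℝ := (1 + Real.cos (x n)) / 100

lemma sV_nonneg (x : ℕ → ℝ) (n : ℕ) : 0 ≤ sV x n := by
  have := Real.neg_one_le_cos (x n)
  unfold sV
  linarith

lemma sV_le (x : ℕ → ℝ) (n : ℕ) : sV x n ≤ 1 / 50 := by
  have := Real.cos_le_one (x n)
  unfold sV
  linarith

lemma abs_sV (x : ℕ → ℝ) (n : ℕ) : |sV x n| ≤ 1 / 50 := by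
  rw [abs_of_nonneg (sV_nonneg x n)]
  exact sV_le x n

lemma sV_sub (x y : ℕ → ℝ) (n : ℕ) : |sV x n - sV y n| ≤ |x n - y n| := by
  have h1 : sV x n - sV y n = (Real.cos (x n) - Real.cos (y n)) / 100 := by
    unfold sV
    ring
  have h2 : |Real.cos (x n) - Real.cos (y n)| ≤ |x n - y n| := by
    rw [Real.cos_sub_cos, abs_mul, abs_mul]
    have h3 := Real.abs_sin_le_one ((x n + y n) / 2)
    have h4 : |Real.sin ((x n - y n) / 2)| ≤ |x n - y n| / 2 := by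
      refine Real.abs_sin_le_abs.trans ?_
      rw [abs_div, abs_two]
    have h5 := abs_nonneg (Real.sin ((x n + y n) / 2))
    have h6 := abs_nonneg (Real.sin ((x n - y n) / 2))
    have h7 : |(-2 : ℝ)| = 2 := by norm_num
    rw [h7]
    nlinarith
  rw [h1, abs_div]
  have h8 : |(100 : ℝ)| = 100 := by norm_num
  rw [h8]
  have := abs_nonneg (Real.cos (x n) - Real.cos (y n))
  linarith

lemma continuous_sV (k : ℕ) : Continuous fun x : ℕ → ℝ => sV x k := by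
  unfold sV
  exact (continuous_const.add (Real.continuous_cos.comp (continuous_apply k))).div_const _

/-- the open sets -/
def Gs (α β : ℝ) (n : ℕ) : Set ((ℕ → ℝ) × (ℕ → ℝ)) :=
  {p | ∃ k, n ≤ k ∧ |sV p.1 k - (1 + Real.cos α) / 100| < 1 / ((n : ℝ) + 1) ∧
    |sV p.2 k - (1 + Real.cos β) / 100| < 1 / ((n : ℝ) + 1)}

theorem open_Gs (α β : ℝ) (n : ℕ) : IsOpen (Gs α β n) := by
  have h : Gs α β n = ⋃ k ∈ {k | n ≤ k},
      ({p : (ℕ → ℝ) × (ℕ → ℝ) | |sV p.1 k - (1 + Real.cos α) / 100| < 1 / ((n : ℝ) + 1)} ∩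
      {p : (ℕ → ℝ) × (ℕ → ℝ) | |sV p.2 k - (1 + Real.cos β) / 100| < 1 / ((n : ℝ) + 1)}) := by
    ext p
    simp only [Gs, Set.mem_ofPred_eq, Set.mem_iUnion, Set.mem_inter_iff, exists_prop]
  rw [h]
  refine isOpen_biUnion fun k _ => IsOpen.inter ?_ ?_
  · exact isOpen_lt (((continuous_sV k).comp continuous_fst).sub continuous_const).abs
      continuous_const
  · exact isOpen_lt (((continuous_sV k).comp continuous_snd).sub continuous_const).abs
      continuous_const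

theorem tendsto_update (x : ℕ → ℝ) (c : ℝ) :
    Tendsto (fun k => Function.update x k c) atTop (𝓝 x) := by
  rw [tendsto_pi_nhds]
  intro i
  refine tendsto_const_nhds.congr' ?_
  filter_upwards [eventually_gt_atTop i] with k hk
  rw [Function.update_of_ne hk.ne]

theorem dense_Gs (α β : ℝ) (n : ℕ) : Dense (Gs α β n) := by
  rintro ⟨x, y⟩
  have h := (tendsto_update x α).prodMk_nhds (tendsto_update y β)
  refine mem_closure_of_tendsto h ?_
  have hn : (0 : ℝ) < 1 / ((n : ℝ) + 1) := Nat.one_div_pos_of_nat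
  filter_upwards [eventually_ge_atTop n] with k hk
  refine ⟨k, hk, ?_, ?_⟩
  · simp only [sV, Function.update_self, sub_self, abs_zero]
    exact hn
  · simp only [sV, Function.update_self, sub_self, abs_zero]
    exact hn

/-- Generic pairs. -/
theorem exists_gen {C : Set (ℕ → ℝ)} (hC : C ∈ residual (ℕ → ℝ)) (α β α' β' : ℝ) :
    ∃ x ∈ C, ∃ y ∈ C, (∀ n, (x, y) ∈ Gs α β n) ∧ ∀ n, (x, y) ∈ Gs α' β' n := by
  have h1 : (Prod.fst : (ℕ → ℝ) × (ℕ → ℝ) → (ℕ → ℝ)) ⁻¹' C ∈ residual ((ℕ → ℝ) × (ℕ → ℝ)) :=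
    tendsto_residual_of_isOpenMap continuous_fst isOpenMap_fst hC
  have h2 : (Prod.snd : (ℕ → ℝ) × (ℕ → ℝ) → (ℕ → ℝ)) ⁻¹' C ∈ residual ((ℕ → ℝ) × (ℕ → ℝ)) :=
    tendsto_residual_of_isOpenMap continuous_snd isOpenMap_snd hC
  have h3 : (⋂ n, Gs α β n) ∈ residual ((ℕ → ℝ) × (ℕ → ℝ)) :=
    countable_iInter_mem.2 fun n => residual_of_dense_open (open_Gs α β n) (dense_Gs α β n)
  have h3' : (⋂ n, Gs α' β' n) ∈ residual ((ℕ → ℝ) × (ℕ → ℝ)) :=
    countable_iInter_mem.2 fun n => residual_of_dense_open (open_Gs α' β' n) (dense_Gs α' β' n)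
  have h4 := dense_of_mem_residual (inter_mem (inter_mem h1 h2) (inter_mem h3 h3'))
  obtain ⟨p, ⟨⟨hp1, hp2⟩, hp3, hp4⟩⟩ := h4.nonempty
  exact ⟨p.1, hp1, p.2, hp2, fun n => Set.mem_iInter.1 hp3 n, fun n => Set.mem_iInter.1 hp4 n⟩

theorem t_erg' : Pool.Agent.H468R2.MA.T_ERG :=
  Pool.Agent.H468R2.MA.t_T_ERG (Pool.Agent.H468R2.MA.t_T_C Pool.Agent.H468R2.MA.t_T_SC
    (Pool.Agent.H468R2.MA.t_T_LOC Pool.Agent.H468R2.MA.t_T_SC
      (Pool.Agent.H468R2.MA.t_T_LOC1 Pool.Agent.H468R2.MA.t_T_SC))) Pool.Agent.H468R2.MA.t_T_CH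

/-- Generic ergodicity with respect to Borel actions of `S_∞`. -/
theorem t_perm : Pool.Agent.H468R2.KA.F_perm.{v} :=
  Pool.Agent.H468R2.KA.t_F_perm Pool.Agent.H468R2.KA.t_F_top
    (Pool.Agent.H468R2.KA.t_F_vt Pool.Agent.H468R2.KA.t_F_top) t_erg'

section mfd

variable {n : ℕ} {M : Type*} [TopologicalSpace M] [ChartedSpace (En n) M]

/-- The unit vectors. -/
lemma exists_ON (hn : 2 ≤ n) : ∃ a b : En n, ON a b := by
  refine ⟨EuclideanSpace.single ⟨0, by omega⟩ 1, EuclideanSpace.single ⟨1, by omega⟩ 1, ?_, ?_, ?_⟩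
  · simp
  · simp
  · simp [EuclideanSpace.inner_single_left]

/-- The diffeomorphisms. -/
noncomputable def DD [T2Space M] {e : OpenPartialHomeomorph M (En n)}
    (he : Metric.closedBall (0 : En n) 1 ⊆ e.target)
    (h1 : ContMDiffOn (𝓡 n) (𝓡 n) ∞ e e.source)
    (h2 : ContMDiffOn (𝓡 n) (𝓡 n) ∞ e.symm e.target) {a b : En n} (h : ON a b) {P : ℕ → ℕ}
    (hP : Good a b P) (x : ℕ → ℝ) : Diffeomorph (𝓡 n) (𝓡 n) M M ∞ where
  toFun := gl e (FF a b (ta P) (sV x))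
  invFun := gl e (FF a b (-ta P) (sV x))
  left_inv := fun p => by
    rw [gl_comp he (adm_FF h _ (abs_sV x))]
    exact gl_id p (FF_neg' h _ _)
  right_inv := fun p => by
    rw [gl_comp he (adm_FF h _ (abs_sV x))]
    exact gl_id p (FF_neg h _ _)
  contMDiff_toFun := contMDiff_gl he h1 h2 (adm_FF h _ (abs_sV x)) (contDiff_FF hP _)
  contMDiff_invFun := contMDiff_gl he h1 h2 (adm_FF h _ (abs_sV x)) (contDiff_FF_neg hP _)

end mfd

end Pool.Agent.TH724.CJ
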