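import Mathlib

/-!
# Gluing a map of a coordinate ball into a manifold
-/

set_option autoImplicit false

open Filter Topology Set
open scoped ContDiff Manifold

namespace Pool.Agent.TH724.CJ

/-- Maps supported in the closed unit ball. -/
structure Adm {E : Type*} [NormedAddCommGroup E] (F : E → E) : Prop where
  out : ∀ v, 1 ≤ ‖v‖ → F v = v
  inn : ∀ v, ‖v‖ ≤ 1 → ‖F v‖ ≤ 1

section top

variable {E : Type*} [NormedAddCommGroup E] {M : Type*} [TopologicalSpace M]

open Classical in
/-- Glue a map of the coordinate ball into `M`. -/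
noncomputable def gl (e : OpenPartialHomeomorph M E) (F : E → E) (p : M) : M :=
  if p ∈ e.source then e.symm (F (e p)) else p

variable {e : OpenPartialHomeomorph M E} {F G : E → E}

lemma gl_in {p : M} (hp : p ∈ e.source) : gl e F p = e.symm (F (e p)) := if_pos hp

lemma gl_out {p : M} (hp : p ∉ e.source) : gl e F p = p := if_neg hp

lemma Adm.target (hF : Adm F) (he : Metric.closedBall (0 : E) 1 ⊆ e.target) {v : E}
    (hv : v ∈ e.target) : F v ∈ e.target := by
  rcases le_total 1 ‖v‖ with h | h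
  · rw [hF.out v h]
    exact hv
  · exact he (by simpa using hF.inn v h)

lemma gl_symm {v : E} (hv : v ∈ e.target) : gl e F (e.symm v) = e.symm (F v) := by
  rw [gl_in (e.map_target hv), e.right_inv hv]

lemma gl_comp (he : Metric.closedBall (0 : E) 1 ⊆ e.target) (hG : Adm G) (p : M) :
    gl e F (gl e G p) = gl e (F ∘ G) p := by
  by_cases hp : p ∈ e.source
  · rw [gl_in (F := G) hp, gl_in (F := F ∘ G) hp, gl_symm (hG.target he (e.map_source hp))]
    rfl
  · rw [gl_out (F := G) hp, gl_out hp, gl_out hp]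

lemma gl_id (p : M) (h : ∀ v, F v = v) : gl e F p = p := by
  by_cases hp : p ∈ e.source
  · rw [gl_in hp, h, e.left_inv hp]
  · rw [gl_out hp]

lemma Adm.iter (hF : Adm F) (m : ℕ) : Adm (F^[m]) := by
  induction m with
  | zero => exact ⟨fun v _ => rfl, fun v h => h⟩
  | succ m ih =>
    refine ⟨fun v hv => ?_, fun v hv => ?_⟩
    · rw [Function.iterate_succ_apply', ih.out v hv, hF.out v hv]
    · rw [Function.iterate_succ_apply']
      exact hF.inn _ (ih.inn v hv)

lemma gl_iter (he : Metric.closedBall (0 : E) 1 ⊆ e.target) (hF : Adm F) (m : ℕ) {p : M}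
    (hp : p ∈ e.source) : (gl e F)^[m] p = e.symm (F^[m] (e p)) := by
  induction m with
  | zero => exact (e.left_inv hp).symm
  | succ m ih =>
    rw [Function.iterate_succ_apply', ih,
      gl_symm ((hF.iter m).target he (e.map_source hp)), Function.iterate_succ_apply']

lemma gl_period (he : Metric.closedBall (0 : E) 1 ⊆ e.target) (hF : Adm F) {p : M}
    (hp : p ∈ e.source) :
    Function.minimalPeriod (gl e F) p = Function.minimalPeriod F (e p) := by
  rw [Function.minimalPeriod_eq_minimalPeriod_iff]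
  intro m
  show (gl e F)^[m] p = p ↔ F^[m] (e p) = e p
  rw [gl_iter he hF m hp]
  have ht := (hF.iter m).target he (e.map_source hp)
  constructor
  · intro h
    have := congrArg e h
    rwa [e.right_inv ht] at this
  · intro h
    rw [h, e.left_inv hp]

lemma gl_period_out {p : M} (hp : p ∉ e.source) :
    Function.minimalPeriod (gl e F) p = 1 :=
  Function.minimalPeriod_eq_one_iff_isFixedPt.2 (gl_out hp)

/-- The closed coordinate ball. -/
def KB (e : OpenPartialHomeomorph M E) : Set M := e.symm '' Metric.closedBall (0 : E) 1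

lemma isClosed_KB [ProperSpace E] [T2Space M] (he : Metric.closedBall (0 : E) 1 ⊆ e.target) :
    IsClosed (KB e) :=
  ((isCompact_closedBall (0 : E) 1).image_of_continuousOn
    (e.continuousOn_symm.mono he)).isClosed

lemma gl_KB (hF : Adm F) {p : M} (hp : p ∉ KB e) : gl e F p = p := by
  by_cases h : p ∈ e.source
  · rw [gl_in h]
    have h1 : 1 ≤ ‖e p‖ := by
      by_contra hc
      rw [not_le] at hc
      exact hp ⟨e p, by simpa using hc.le, e.left_inv h⟩
    rw [hF.out _ h1, e.left_inv h]
  · exact gl_out h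

lemma continuous_gl [ProperSpace E] [T2Space M]
    (he : Metric.closedBall (0 : E) 1 ⊆ e.target) (hF : Adm F) (hc : Continuous F) :
    Continuous (gl e F) := by
  rw [continuous_iff_continuousAt]
  intro p
  by_cases hp : p ∈ e.source
  · have h1 : gl e F =ᶠ[𝓝 p] fun q => e.symm (F (e q)) := by
      filter_upwards [e.open_source.mem_nhds hp] with q hq
      exact gl_in hq
    refine ContinuousAt.congr ?_ h1.symm
    have h2 : ContinuousAt e.symm (F (e p)) :=
      e.continuousAt_symm (hF.target he (e.map_source hp))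
    exact ContinuousAt.comp (f := fun q => F (e q)) h2
      (hc.continuousAt.comp (e.continuousAt hp))
  · have h3 : p ∉ KB e := by
      rintro ⟨v, hv, rfl⟩
      exact hp (e.map_target (he hv))
    have h1 : gl e F =ᶠ[𝓝 p] fun q => q := by
      filter_upwards [(isClosed_KB he).isOpen_compl.mem_nhds h3] with q hq
      exact gl_KB hF hq
    exact continuousAt_id.congr h1.symm

end top

section mfd

variable {n : ℕ} {M : Type*} [TopologicalSpace M] [ChartedSpace (EuclideanSpace ℝ (Fin n)) M]

/-- The space `ℝⁿ`. -/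
abbrev En (n : ℕ) : Type := EuclideanSpace ℝ (Fin n)

lemma contMDiff_gl [T2Space M] {e : OpenPartialHomeomorph M (En n)}
    (he : Metric.closedBall (0 : En n) 1 ⊆ e.target)
    (h1 : ContMDiffOn (𝓡 n) (𝓡 n) ∞ e e.source)
    (h2 : ContMDiffOn (𝓡 n) (𝓡 n) ∞ e.symm e.target) {F : En n → En n} (hF : Adm F)
    (hc : ContDiff ℝ ∞ F) : ContMDiff (𝓡 n) (𝓡 n) ∞ (gl e F) := by
  intro p
  by_cases hp : p ∈ e.source
  · have h3 : gl e F =ᶠ[𝓝 p] fun q => e.symm (F (e q)) := by
      filter_upwards [e.open_source.mem_nhds hp] with q hq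
      exact gl_in hq
    refine ContMDiffAt.congr_of_eventuallyEq ?_ h3
    have h4 : ContMDiffAt (𝓡 n) (𝓡 n) ∞ e p := h1.contMDiffAt (e.open_source.mem_nhds hp)
    have h5 : F (e p) ∈ e.target := hF.target he (e.map_source hp)
    have h6 : ContMDiffAt (𝓡 n) (𝓡 n) ∞ e.symm (F (e p)) :=
      h2.contMDiffAt (e.open_target.mem_nhds h5)
    have h7 : ContMDiffAt (𝓡 n) (𝓡 n) ∞ F (e p) := hc.contMDiff.contMDiffAt
    exact ContMDiffAt.comp p (g := e.symm) (f := fun q => F (e q)) h6
      (ContMDiffAt.comp p (g := F) (f := e) h7 h4)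
  · have h3 : p ∉ KB e := by
      rintro ⟨v, hv, rfl⟩
      exact hp (e.map_target (he hv))
    have h4 : gl e F =ᶠ[𝓝 p] fun q => q := by
      filter_upwards [(isClosed_KB he).isOpen_compl.mem_nhds h3] with q hq
      exact gl_KB hF hq
    exact contMDiffAt_id.congr_of_eventuallyEq h4

/-- Charts with large target. -/
lemma exists_chart [IsManifold (𝓡 n) ∞ M] (p0 : M) :
    ∃ e : OpenPartialHomeomorph M (En n), Metric.closedBall (0 : En n) 1 ⊆ e.target ∧
      ContMDiffOn (𝓡 n) (𝓡 n) ∞ e e.source ∧ ContMDiffOn (𝓡 n) (𝓡 n) ∞ e.symm e.target := by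
  obtain ⟨c, hc⟩ : ∃ c, c = chartAt (En n) p0 := ⟨_, rfl⟩
  have h1 : ContMDiffOn (𝓡 n) (𝓡 n) ∞ c c.source := by
    rw [hc]
    exact contMDiffOn_chart
  have h2 : ContMDiffOn (𝓡 n) (𝓡 n) ∞ c.symm c.target := by
    rw [hc]
    exact contMDiffOn_chart_symm
  have h3 : c p0 ∈ c.target := by
    rw [hc]
    exact mem_chart_target _ p0
  obtain ⟨ρ, hρ, hball⟩ := Metric.nhds_basis_closedBall.mem_iff.1 (c.open_target.mem_nhds h3)
  let A : En n ≃ₜ En n :=
    { toFun := fun v => ρ⁻¹ • (v - c p0)
      invFun := fun v => c p0 + ρ • v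
      left_inv := fun v => by
        simp only
        rw [smul_smul, mul_inv_cancel₀ hρ.ne', one_smul]
        abel
      right_inv := fun v => by
        simp only
        rw [add_sub_cancel_left, smul_smul, inv_mul_cancel₀ hρ.ne', one_smul]
      continuous_toFun := by fun_prop
      continuous_invFun := by fun_prop }
  have hA : ContDiff ℝ ∞ A := by
    show ContDiff ℝ ∞ fun v : En n => ρ⁻¹ • (v - c p0)
    fun_prop
  have hA' : ContDiff ℝ ∞ A.symm := by
    show ContDiff ℝ ∞ fun v : En n => c p0 + ρ • v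
    fun_prop
  refine ⟨c.transHomeomorph A, ?_, ?_, ?_⟩
  · intro v hv
    show A.symm v ∈ c.target
    refine hball ?_
    rw [mem_closedBall_zero_iff] at hv
    rw [Metric.mem_closedBall, dist_eq_norm]
    show ‖c p0 + ρ • v - c p0‖ ≤ ρ
    rw [add_sub_cancel_left, norm_smul, Real.norm_eq_abs, abs_of_pos hρ]
    nlinarith
  · show ContMDiffOn (𝓡 n) (𝓡 n) ∞ (A ∘ c) c.source
    exact hA.contMDiff.comp_contMDiffOn h1
  · show ContMDiffOn (𝓡 n) (𝓡 n) ∞ (c.symm ∘ A.symm) (A.symm ⁻¹' c.target)
    exact h2.comp hA'.contMDiff.contMDiffOn (fun v hv => hv)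

end mfd

end Pool.Agent.TH724.CJ
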