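import Pool.Agent.TH724.CJ.Fam

/-!
# Close parameters give conjugate maps
-/

set_option autoImplicit false

open Filter Topology Set
open scoped RealInnerProductSpace ContDiff

namespace Pool.Agent.TH724.CJ

variable {E : Type*} [NormedAddCommGroup E] [InnerProductSpace ℝ E] {a b : E}

/-- Horizontal cutoff. -/
noncomputable def ca (r : ℝ) : ℝ := max 0 (min 1 (2 - 4 * |r|))

/-- Vertical cutoff. -/
noncomputable def cb (r : ℝ) : ℝ := max 0 (min 1 (2 - r))

lemma ca_nonneg (r : ℝ) : 0 ≤ ca r := le_max_left _ _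

lemma ca_le (r : ℝ) : ca r ≤ 1 := max_le zero_le_one (min_le_left _ _)

lemma cb_nonneg (r : ℝ) : 0 ≤ cb r := le_max_left _ _

lemma cb_le (r : ℝ) : cb r ≤ 1 := max_le zero_le_one (min_le_left _ _)

lemma ca_one {r : ℝ} (h : |r| ≤ 1 / 4) : ca r = 1 := by
  unfold ca
  rw [min_eq_left (by linarith), max_eq_right zero_le_one]

lemma ca_zero {r : ℝ} (h : 1 / 2 ≤ |r|) : ca r = 0 := by
  unfold ca
  rw [max_eq_left]
  exact (min_le_right _ _).trans (by linarith)

lemma cb_one {r : ℝ} (h : r ≤ 1) : cb r = 1 := by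
  unfold cb
  rw [min_eq_left (by linarith), max_eq_right zero_le_one]

lemma cb_zero {r : ℝ} (h : 2 ≤ r) : cb r = 0 := by
  unfold cb
  rw [max_eq_left]
  exact (min_le_right _ _).trans (by linarith)

lemma ca_lip (r r' : ℝ) : |ca r - ca r'| ≤ 4 * |r - r'| := by
  unfold ca
  have h1 := abs_max_sub_max_le_abs (min 1 (2 - 4 * |r|)) (min 1 (2 - 4 * |r'|)) 0
  rw [max_comm _ (0 : ℝ), max_comm _ (0 : ℝ)] at h1
  have h2 := abs_min_sub_min_le_max (1 : ℝ) (2 - 4 * |r|) 1 (2 - 4 * |r'|)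
  rw [sub_self, abs_zero, max_eq_right (abs_nonneg _)] at h2
  have h3 : |2 - 4 * |r| - (2 - 4 * |r'|)| = 4 * |(|r| - |r'|)| := by
    rw [show 2 - 4 * |r| - (2 - 4 * |r'|) = -(4 * (|r| - |r'|)) by ring, abs_neg, abs_mul]
    norm_num
  have h4 := abs_abs_sub_abs_le_abs_sub r r'
  rw [h3] at h2
  linarith

lemma continuous_ca : Continuous ca := by
  unfold ca
  fun_prop

lemma continuous_cb : Continuous cb := by
  unfold cb
  fun_prop

/-- Distance of the part orthogonal to `a` to the height `k`. -/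
noncomputable def qq (a b : E) (k : ℕ) (v : E) : ℝ := ‖v - ⟪a, v⟫ • a - hh k • b‖

lemma qq_add (h : ON a b) (k : ℕ) (v : E) (r : ℝ) : qq a b k (v + r • a) = qq a b k v := by
  unfold qq
  rw [inner_add_right, inner_smul_right, h.aa]
  congr 1
  module

lemma b_qq (h : ON a b) (k : ℕ) (v : E) : |⟪b, v⟫ - hh k| ≤ qq a b k v := by
  have h1 := abs_inner_b h (v - ⟪a, v⟫ • a - hh k • b)
  rw [inner_sub_right, inner_sub_right, inner_smul_right, inner_smul_right, h.ba, h.bb] at h1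
  unfold qq
  simpa using h1

lemma qq_sep (h : ON a b) {k j : ℕ} {v : E} (h1 : qq a b k v < 2 * dl k)
    (h2 : qq a b j v < 2 * dl j) : k = j :=
  hh_sep ((b_qq h k v).trans_lt h1) ((b_qq h j v).trans_lt h2)

lemma qq_le (h : ON a b) (s : ℕ → ℝ) (k : ℕ) (v : E) : qq a b k v ≤ ‖v - ce a b s k‖ := by
  have h1 : v - ce a b s k = (⟪a, v⟫ - s k) • a + (v - ⟪a, v⟫ • a - hh k • b) := by
    unfold ce
    module
  have h2 : ⟪(⟪a, v⟫ - s k) • a, v - ⟪a, v⟫ • a - hh k • b⟫ = 0 := by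
    rw [inner_smul_left, inner_sub_right, inner_sub_right, inner_smul_right, inner_smul_right,
      h.aa, h.ab]
    simp
  have h3 := norm_add_sq_eq_norm_sq_add_norm_sq_of_inner_eq_zero _ _ h2
  rw [← h1] at h3
  unfold qq
  have h4 := norm_nonneg (v - ce a b s k)
  have h5 := mul_self_nonneg ‖(⟪a, v⟫ - s k) • a‖
  exact le_of_sq_le_sq' h4 (by nlinarith)
where
  le_of_sq_le_sq' {x y : ℝ} (hy : 0 ≤ y) (h : x * x ≤ y * y) : x ≤ y := by
    by_contra hc
    rw [not_le] at hc
    nlinarith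

lemma continuous_qq (a b : E) (k : ℕ) : Continuous (qq a b k) := by
  unfold qq
  have : Continuous fun v : E => ⟪a, v⟫ := by fun_prop
  fun_prop

/-- The cutoff functions. -/
noncomputable def chi (a b : E) (k : ℕ) (v : E) : ℝ := ca ⟪a, v⟫ * cb (qq a b k v / dl k)

lemma chi_nonneg (k : ℕ) (v : E) : 0 ≤ chi a b k v := mul_nonneg (ca_nonneg _) (cb_nonneg _)

lemma chi_le (k : ℕ) (v : E) : chi a b k v ≤ 1 :=
  mul_le_one₀ (ca_le _) (cb_nonneg _) (cb_le _)

lemma chi_zero {k : ℕ} {v : E} (h : 2 * dl k ≤ qq a b k v) : chi a b k v = 0 := by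
  unfold chi
  rw [cb_zero, mul_zero]
  rw [le_div_iff₀ (dl_pos k)]
  exact h

lemma continuous_chi (a b : E) (k : ℕ) : Continuous (chi a b k) := by
  unfold chi
  have : Continuous fun v : E => ⟪a, v⟫ := by fun_prop
  exact (continuous_ca.comp this).mul (continuous_cb.comp ((continuous_qq a b k).div_const _))

/-- The displacement of the conjugacy. -/
noncomputable def Th (a b : E) (d : ℕ → ℝ) (v : E) : ℝ := ∑' k, d k * chi a b k v

lemma Th_eq (h : ON a b) (d : ℕ → ℝ) {k : ℕ} {v : E} (hv : qq a b k v < 2 * dl k) :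
    Th a b d v = d k * chi a b k v := by
  unfold Th
  refine tsum_eq_single k fun j hj => ?_
  rw [chi_zero, mul_zero]
  by_contra hc
  rw [not_le] at hc
  exact hj (qq_sep h hc hv)

lemma Th_zero (d : ℕ → ℝ) {v : E} (hv : ∀ k, 2 * dl k ≤ qq a b k v) : Th a b d v = 0 := by
  unfold Th
  have : ∀ k, d k * chi a b k v = 0 := fun k => by rw [chi_zero (hv k), mul_zero]
  simp [this]

lemma abs_Th_le (h : ON a b) {d : ℕ → ℝ} (hd : ∀ k, |d k| ≤ 1 / 25) (v : E) :
    |Th a b d v| ≤ 1 / 25 := by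
  by_cases hv : ∃ k, qq a b k v < 2 * dl k
  · obtain ⟨k, hk⟩ := hv
    rw [Th_eq h d hk, abs_mul, abs_of_nonneg (chi_nonneg k v)]
    calc |d k| * chi a b k v ≤ |d k| * 1 :=
          mul_le_mul_of_nonneg_left (chi_le k v) (abs_nonneg _)
      _ ≤ 1 / 25 := by rw [mul_one]; exact hd k
  · push Not at hv
    rw [Th_zero d hv, abs_zero]
    norm_num

lemma Th_lip (h : ON a b) {d : ℕ → ℝ} (hd : ∀ k, |d k| ≤ 1 / 25) (v : E) (r r' : ℝ) :
    |Th a b d (v + r • a) - Th a b d (v + r' • a)| ≤ 4 / 25 * |r - r'| := by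
  by_cases hv : ∃ k, qq a b k v < 2 * dl k
  · obtain ⟨k, hk⟩ := hv
    have e1 : ∀ t, Th a b d (v + t • a) = d k * (ca (⟪a, v⟫ + t) * cb (qq a b k v / dl k)) := by
      intro t
      rw [Th_eq h d (k := k) (by rw [qq_add h]; exact hk)]
      unfold chi
      rw [qq_add h, inner_add_right, inner_smul_right, h.aa, mul_one]
    rw [e1, e1, ← mul_sub, ← sub_mul, abs_mul, abs_mul, abs_of_nonneg (cb_nonneg _)]
    have h1 := ca_lip (⟪a, v⟫ + r) (⟪a, v⟫ + r')
    rw [add_sub_add_left_eq_sub] at h1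
    have h2 := cb_nonneg (qq a b k v / dl k)
    have h3 := cb_le (qq a b k v / dl k)
    have h4 := hd k
    calc |d k| * (|ca (⟪a, v⟫ + r) - ca (⟪a, v⟫ + r')| * cb (qq a b k v / dl k))
        ≤ 1 / 25 * (4 * |r - r'| * 1) := by
          refine mul_le_mul h4 ?_ (by positivity) (by norm_num)
          exact mul_le_mul h1 h3 h2 (by positivity)
      _ = 4 / 25 * |r - r'| := by ring
  · push Not at hv
    rw [Th_zero d (fun k => by rw [qq_add h]; exact hv k),
      Th_zero d (fun k => by rw [qq_add h]; exact hv k), sub_self, abs_zero]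
    positivity

lemma continuous_Th {d : ℕ → ℝ} (hd : Summable fun k => |d k|) : Continuous (Th a b d) := by
  unfold Th
  refine continuous_tsum (fun k => continuous_const.mul (continuous_chi a b k)) hd fun k v => ?_
  rw [norm_mul, Real.norm_eq_abs, Real.norm_eq_abs, abs_of_nonneg (chi_nonneg k v)]
  calc |d k| * chi a b k v ≤ |d k| * 1 :=
        mul_le_mul_of_nonneg_left (chi_le k v) (abs_nonneg _)
    _ = |d k| := mul_one _

lemma Th_big (h : ON a b) (d : ℕ → ℝ) {v : E} (hv : 1 ≤ ‖v‖) : Th a b d v = 0 := by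
  by_cases hq : ∃ k, qq a b k v < 2 * dl k
  · obtain ⟨k, hk⟩ := hq
    rw [Th_eq h d hk]
    have : ca ⟪a, v⟫ = 0 := by
      apply ca_zero
      have h1 : v = ⟪a, v⟫ • a + ((v - ⟪a, v⟫ • a - hh k • b) + hh k • b) := by module
      have h2 : ‖v‖ ≤ |⟪a, v⟫| + (qq a b k v + hh k) := by
        calc ‖v‖ = ‖⟪a, v⟫ • a + ((v - ⟪a, v⟫ • a - hh k • b) + hh k • b)‖ := by rw [← h1]
          _ ≤ ‖⟪a, v⟫ • a‖ + (‖v - ⟪a, v⟫ • a - hh k • b‖ + ‖hh k • b‖) :=
              (norm_add_le _ _).trans (add_le_add le_rfl (norm_add_le _ _))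
          _ = |⟪a, v⟫| + (qq a b k v + hh k) := by
              rw [norm_smul, norm_smul, h.na, h.nb, mul_one, mul_one, Real.norm_eq_abs,
                Real.norm_eq_abs, abs_of_pos (hh_pos k)]
              rfl
      have h3 := hh_le k
      have h4 := dl_le k
      linarith
    unfold chi
    rw [this]
    ring
  · push Not at hq
    exact Th_zero d hq

/-- The conjugacy. -/
noncomputable def HH (a b : E) (d : ℕ → ℝ) (v : E) : E := v + Th a b d v • a

lemma HH_inj (h : ON a b) {d : ℕ → ℝ} (hd : ∀ k, |d k| ≤ 1 / 25) :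
    Function.Injective (HH a b d) := by
  intro v v' hvv
  unfold HH at hvv
  obtain ⟨r, hr⟩ : ∃ r, r = Th a b d v - Th a b d v' := ⟨_, rfl⟩
  have h1 : v' = v + r • a := by
    rw [hr, sub_smul]
    have := congrArg (fun z => z - Th a b d v' • a) hvv
    simp only [add_sub_cancel_right] at this
    refine this.symm.trans ?_
    abel
  have h2 := Th_lip h hd v r 0
  rw [zero_smul, add_zero, ← h1, sub_zero] at h2
  have h3 : |Th a b d v' - Th a b d v| = |r| := by
    rw [hr, abs_sub_comm]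
  rw [h3] at h2
  have h4 : |r| = 0 := le_antisymm (by linarith [abs_nonneg r]) (abs_nonneg r)
  rw [abs_eq_zero.1 h4] at h1
  rw [h1]
  simp

lemma continuous_HH {d : ℕ → ℝ} (hd : Summable fun k => |d k|) : Continuous (HH a b d) :=
  continuous_id.add ((continuous_Th hd).smul continuous_const)

lemma HH_surj (h : ON a b) {d : ℕ → ℝ} (hd : ∀ k, |d k| ≤ 1 / 25)
    (hs : Summable fun k => |d k|) : Function.Surjective (HH a b d) := by
  intro u
  let ψ : ℝ → ℝ := fun r => r + Th a b d (u + r • a)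
  have hψ : Continuous ψ := by
    refine continuous_id.add ((continuous_Th hs).comp ?_)
    fun_prop
  have h0 : (0 : ℝ) ∈ Icc (ψ (-1)) (ψ 1) := by
    have h1 := abs_le.1 (abs_Th_le h hd (u + (-1 : ℝ) • a))
    have h2 := abs_le.1 (abs_Th_le h hd (u + (1 : ℝ) • a))
    constructor
    · show -1 + Th a b d (u + (-1 : ℝ) • a) ≤ 0
      linarith [h1.2]
    · show 0 ≤ 1 + Th a b d (u + (1 : ℝ) • a)
      linarith [h2.1]
  obtain ⟨r, -, hr⟩ := intermediate_value_Icc (by norm_num : (-1 : ℝ) ≤ 1) hψ.continuousOn h0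
  refine ⟨u + r • a, ?_⟩
  unfold HH
  have h3 : r + Th a b d (u + r • a) = 0 := hr
  rw [add_assoc, ← add_smul, h3, zero_smul, add_zero]

lemma HH_in (h : ON a b) {s t : ℕ → ℝ} (hs : ∀ k, |s k| ≤ 1 / 50) {k : ℕ} {v : E}
    (hv : ‖v - ce a b s k‖ < dl k) :
    HH a b (fun k => t k - s k) v = v + (t k - s k) • a := by
  have h1 : qq a b k v < dl k := (qq_le h s k v).trans_lt hv
  have h2 := dl_pos k
  have h3 : |⟪a, v⟫| ≤ 1 / 4 := by
    have e1 := abs_inner_a h (v - ce a b s k)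
    rw [inner_sub_right, inner_a_ce h] at e1
    have e2 := hs k
    have e3 := dl_le k
    have e4 := abs_sub_abs_le_abs_sub ⟪a, v⟫ (s k)
    linarith
  have h4 : chi a b k v = 1 := by
    unfold chi
    rw [ca_one h3, cb_one, mul_one]
    rw [div_le_one h2]
    exact h1.le
  unfold HH
  rw [Th_eq h _ (k := k) (by linarith), h4, mul_one]

lemma ce_add (s t : ℕ → ℝ) (k : ℕ) : ce a b t k = ce a b s k + (t k - s k) • a := by
  unfold ce
  module

lemma HH_conj (h : ON a b) (τ : ℕ → ℝ) {s t : ℕ → ℝ} (hs : ∀ k, |s k| ≤ 1 / 50)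
    (ht : ∀ k, |t k| ≤ 1 / 50) (v : E) :
    HH a b (fun k => t k - s k) (FF a b τ s v) = FF a b τ t (HH a b (fun k => t k - s k) v) := by
  have hd : ∀ k, |t k - s k| ≤ 1 / 25 := fun k => by
    refine (abs_sub _ _).trans ?_
    linarith [hs k, ht k]
  by_cases hv : ∃ k, ‖v - ce a b s k‖ < dl k
  · obtain ⟨k, hk⟩ := hv
    have hk2 : ‖v - ce a b s k‖ < 2 * dl k := by linarith [dl_pos k]
    have h1 : ‖FF a b τ s v - ce a b s k‖ < dl k := by
      rw [norm_FF_sub h τ s hk2]
      exact hk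
    have h2 : v + (t k - s k) • a - ce a b t k = v - ce a b s k := by
      rw [ce_add s t]
      abel
    rw [HH_in h hs h1, HH_in h hs hk, FF_in h τ s hk2, FF_in h τ t (k := k) (by rw [h2]; exact hk2),
      h2, ce_add s t]
    abel
  · push Not at hv
    rw [FF_out τ s hv, FF_out τ t]
    intro k
    by_contra hc
    rw [not_le] at hc
    have h3 : ‖HH a b (fun k => t k - s k) v - (t k - s k) • a - ce a b s k‖ < dl k := by
      rw [ce_add s t] at hc
      rwa [sub_sub, add_comm ((t k - s k) • a)]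
    have h4 := HH_in h (t := t) hs h3
    rw [sub_add_cancel] at h4
    have h5 := HH_inj h hd h4
    rw [h5] at h3
    exact absurd (hv k) (not_le.2 h3)

end Pool.Agent.TH724.CJ
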