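import Pool.Agent.TH724.CJ.Per
import Pool.Agent.TH724.CJ.Hom
import Pool.Agent.TH724.CJ.Glue

/-!
# Conjugacy of the glued maps
-/

set_option autoImplicit false

open Filter Topology Set
open scoped RealInnerProductSpace ContDiff

namespace Pool.Agent.TH724.CJ

lemma Adm.of_inj {E : Type*} [NormedAddCommGroup E] {F : E → E} (hi : Function.Injective F)
    (ho : ∀ v, 1 ≤ ‖v‖ → F v = v) : Adm F := by
  refine ⟨ho, fun v hv => ?_⟩
  by_contra hc
  rw [not_le] at hc
  have h1 := hi (ho (F v) hc.le)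
  rw [h1] at hc
  linarith

variable {E : Type*} [NormedAddCommGroup E] [InnerProductSpace ℝ E] {a b : E}

lemma FF_inj (h : ON a b) (τ s : ℕ → ℝ) : Function.Injective (FF a b τ s) := by
  intro v w hvw
  have := congrArg (FF a b (-τ) s) hvw
  rwa [FF_neg' h, FF_neg' h] at this

lemma adm_FF (h : ON a b) (τ : ℕ → ℝ) {s : ℕ → ℝ} (hs : ∀ k, |s k| ≤ 1 / 50) :
    Adm (FF a b τ s) :=
  Adm.of_inj (FF_inj h τ s) fun _ hv => FF_big h τ hs hv

lemma adm_HH (h : ON a b) {d : ℕ → ℝ} (hd : ∀ k, |d k| ≤ 1 / 25) : Adm (HH a b d) :=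
  Adm.of_inj (HH_inj h hd) fun v hv => by
    unfold HH
    rw [Th_big h d hv, zero_smul, add_zero]

variable {M : Type*} [TopologicalSpace M]

/-- Close parameters give conjugate maps. -/
theorem close_conj [T2Space M] [CompactSpace M] [ProperSpace E] (h : ON a b)
    {e : OpenPartialHomeomorph M E} (he : Metric.closedBall (0 : E) 1 ⊆ e.target) (τ : ℕ → ℝ)
    {s t : ℕ → ℝ} (hs : ∀ k, |s k| ≤ 1 / 50) (ht : ∀ k, |t k| ≤ 1 / 50)
    (hst : Summable fun k => |t k - s k|) :
    ∃ g : M ≃ₜ M, ∀ p, g (gl e (FF a b τ s) p) = gl e (FF a b τ t) (g p) := by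
  have hd : ∀ k, |t k - s k| ≤ 1 / 25 := fun k => by
    refine (abs_sub _ _).trans ?_
    linarith [hs k, ht k]
  obtain ⟨d, hdd⟩ : ∃ d : ℕ → ℝ, d = fun k => t k - s k := ⟨_, rfl⟩
  have hd' : ∀ k, |d k| ≤ 1 / 25 := fun k => by rw [hdd]; exact hd k
  have hsum : Summable fun k => |d k| := by rw [hdd]; exact hst
  have hinj := HH_inj h hd'
  have hsurj := HH_surj h hd' hsum
  let K : E ≃ E := Equiv.ofBijective (HH a b d) ⟨hinj, hsurj⟩
  have hK1 : ∀ v, K.symm (HH a b d v) = v := fun v => K.symm_apply_apply v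
  have hK2 : ∀ v, HH a b d (K.symm v) = v := fun v => K.apply_symm_apply v
  have hH := adm_HH h hd'
  have hKadm : Adm K.symm := by
    refine Adm.of_inj K.symm.injective fun v hv => ?_
    have := hK1 v
    rwa [hH.out v hv] at this
  let G : M ≃ M :=
    { toFun := gl e (HH a b d)
      invFun := gl e K.symm
      left_inv := fun p => by
        rw [gl_comp he hH]
        exact gl_id p hK1
      right_inv := fun p => by
        rw [gl_comp he hKadm]
        exact gl_id p hK2 }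
  have hG : Continuous G := continuous_gl he hH (continuous_HH hsum)
  refine ⟨Continuous.homeoOfEquivCompactToT2 hG, fun p => ?_⟩
  show gl e (HH a b d) (gl e (FF a b τ s) p) = gl e (FF a b τ t) (gl e (HH a b d) p)
  rw [gl_comp he (adm_FF h τ hs), gl_comp he hH]
  congr 1
  funext v
  simp only [Function.comp]
  rw [hdd]
  exact HH_conj h τ hs ht v

/-- A conjugacy matches the balls with the same index. -/
lemma match_balls (h : ON a b) {e : OpenPartialHomeomorph M E}
    (he : Metric.closedBall (0 : E) 1 ⊆ e.target) {P : ℕ → ℕ} (h2 : ∀ k, 2 ≤ P k)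
    (hinj : Function.Injective P) {s t : ℕ → ℝ} (hs : ∀ k, |s k| ≤ 1 / 50)
    (ht : ∀ k, |t k| ≤ 1 / 50) {g : M ≃ₜ M}
    (hg : ∀ p, g (gl e (FF a b (ta P) s) p) = gl e (FF a b (ta P) t) (g p)) (k : ℕ) :
    ∃ v u : E, ‖v - ce a b s k‖ < dl k ∧ ‖u - ce a b t k‖ < dl k ∧
      g (e.symm v) = e.symm u := by
  have hFs := adm_FF h (ta P) hs
  have hFt := adm_FF h (ta P) ht
  have hper : ∀ p, Function.minimalPeriod (gl e (FF a b (ta P) t)) (g p) =
      Function.minimalPeriod (gl e (FF a b (ta P) s)) p := by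
    intro p
    rw [Function.minimalPeriod_eq_minimalPeriod_iff]
    intro m
    have h3 : ∀ p, g ((gl e (FF a b (ta P) s))^[m] p) = (gl e (FF a b (ta P) t))^[m] (g p) := by
      intro p
      exact Function.Semiconj.iterate_right (f := g) (fun p => hg p) m p
    show (gl e (FF a b (ta P) t))^[m] (g p) = g p ↔ (gl e (FF a b (ta P) s))^[m] p = p
    rw [← h3]
    exact g.injective.eq_iff
  obtain ⟨V, hV⟩ : ∃ V : Set E, V = {v | ‖v - ce a b s k‖ < dl k / 2 ∧
    J a b (v - ce a b s k) ≠ 0} := ⟨_, rfl⟩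
  have hVo : IsOpen V := by
    rw [hV]
    have o1 : IsOpen {v : E | ‖v - ce a b s k‖ < dl k / 2} :=
      isOpen_lt (by fun_prop) continuous_const
    have o2 : IsOpen {v : E | J a b (v - ce a b s k) ≠ 0} :=
      isOpen_ne.preimage ((J a b).continuous.comp (continuous_id.sub continuous_const))
    exact o1.inter o2
  have hWo : IsOpen (e.source ∩ e ⁻¹' V) := e.isOpen_inter_preimage hVo
  have hWp : ∀ p ∈ e.source ∩ e ⁻¹' V,
      Function.minimalPeriod (gl e (FF a b (ta P) s)) p = P k := by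
    rintro p ⟨hp1, hp2⟩
    rw [gl_period he hFs hp1]
    have hp3 : e p ∈ V := hp2
    rw [hV] at hp3
    exact per_core h h2 s hp3.1 hp3.2
  have hWo' : IsOpen (g '' (e.source ∩ e ⁻¹' V)) := g.isOpenMap _ hWo
  have hUo : IsOpen (e.target ∩ e.symm ⁻¹' (g '' (e.source ∩ e ⁻¹' V))) :=
    e.symm.isOpen_inter_preimage hWo'
  have hd := dl_pos k
  obtain ⟨v, hv⟩ : ∃ v, v = ce a b s k + (dl k / 4) • a := ⟨_, rfl⟩
  have hv1 : ‖v - ce a b s k‖ = dl k / 4 := by
    rw [hv, add_sub_cancel_left, norm_smul, h.na, mul_one, Real.norm_eq_abs,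
      abs_of_pos (by positivity)]
  have hvV : v ∈ V := by
    rw [hV]
    refine ⟨by rw [hv1]; linarith, ?_⟩
    rw [hv, add_sub_cancel_left, map_smul]
    refine smul_ne_zero (by positivity) ?_
    rw [J_apply, h.aa, h.ba, one_smul, zero_smul, sub_zero]
    intro hb
    have := h.nb
    rw [hb, norm_zero] at this
    norm_num at this
  have hvt : v ∈ e.target := by
    refine he ?_
    rw [mem_closedBall_zero_iff]
    have e1 := norm_ce_le h (hs k)
    have e2 := dl_le k
    have e3 : ‖v‖ ≤ ‖v - ce a b s k‖ + ‖ce a b s k‖ := by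
      calc ‖v‖ = ‖(v - ce a b s k) + ce a b s k‖ := by rw [sub_add_cancel]
        _ ≤ _ := norm_add_le _ _
    linarith
  have hvW : e.symm v ∈ e.source ∩ e ⁻¹' V := by
    refine ⟨e.map_target hvt, ?_⟩
    show e (e.symm v) ∈ V
    rw [e.right_inv hvt]
    exact hvV
  have hq : g (e.symm v) ∈ e.source := by
    by_contra hc
    have h5 := gl_period_out (F := FF a b (ta P) t) hc
    rw [hper, hWp _ hvW] at h5
    have := h2 k
    omega
  refine ⟨v, e (g (e.symm v)), by rw [hv1]; linarith, ?_, (e.left_inv hq).symm⟩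
  refine per_open h h2 hinj t hUo (fun u hu => ?_) (v := e (g (e.symm v))) ?_
  · obtain ⟨hu1, p, hp, hpu⟩ := hu
    have h6 : e.symm u ∈ e.source := e.map_target hu1
    have h7 := gl_period he hFt h6
    rw [e.right_inv hu1] at h7
    rw [← h7, ← hpu, hper]
    exact hWp p hp
  · refine ⟨e.map_source hq, ?_⟩
    show e.symm (e (g (e.symm v))) ∈ g '' (e.source ∩ e ⁻¹' V)
    rw [e.left_inv hq]
    exact ⟨_, hvW, rfl⟩

/-- Limits of matched balls. -/
lemma match_limit [T2Space M] (h : ON a b) {e : OpenPartialHomeomorph M E}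
    (he : Metric.closedBall (0 : E) 1 ⊆ e.target) {P : ℕ → ℕ} (h2 : ∀ k, 2 ≤ P k)
    (hinj : Function.Injective P) {s t : ℕ → ℝ} (hs : ∀ k, |s k| ≤ 1 / 50)
    (ht : ∀ k, |t k| ≤ 1 / 50) {g : M ≃ₜ M}
    (hg : ∀ p, g (gl e (FF a b (ta P) s) p) = gl e (FF a b (ta P) t) (g p))
    {α β : ℝ} (hα : |α| ≤ 1 / 50) (hβ : |β| ≤ 1 / 50)
    (hlim : ∀ N : ℕ, ∃ k, N ≤ k ∧ |s k - α| < 1 / ((N : ℝ) + 1) ∧ |t k - β| < 1 / ((N : ℝ) + 1)) :
    g (e.symm (α • a)) = e.symm (β • a) := by
  choose κ hκ1 hκ2 hκ3 using hlim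
  choose v u hv hu hgvu using match_balls h he h2 hinj hs ht hg
  have hκ : Tendsto κ atTop atTop := tendsto_atTop_mono hκ1 tendsto_id
  have hdl : Tendsto (fun N => dl (κ N) + hh (κ N)) atTop (𝓝 0) := by
    have e1 : Tendsto dl atTop (𝓝 0) := by
      unfold dl
      exact (tendsto_pow_atTop_nhds_zero_of_lt_one (by norm_num) (by norm_num)).comp
        (tendsto_add_atTop_nat 5)
    have e2 : Tendsto hh atTop (𝓝 0) := by
      unfold hh
      exact (tendsto_pow_atTop_nhds_zero_of_lt_one (by norm_num) (by norm_num)).comp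
        (tendsto_add_atTop_nat 2)
    have := (e1.comp hκ).add (e2.comp hκ)
    simpa using this
  have hbound : Tendsto (fun N : ℕ => dl (κ N) + hh (κ N) + 1 / ((N : ℝ) + 1)) atTop (𝓝 0) := by
    have := hdl.add tendsto_one_div_add_atTop_nhds_zero_nat
    simpa using this
  have key : ∀ (r : ℕ → ℝ) (γ : ℝ) (w : ℕ → E), (∀ k, ‖w k - ce a b r k‖ < dl k) →
      (∀ N : ℕ, |r (κ N) - γ| < 1 / ((N : ℝ) + 1)) → Tendsto (fun N => w (κ N)) atTop
        (𝓝 (γ • a)) := by
    intro r γ w hw hr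
    rw [tendsto_iff_norm_sub_tendsto_zero]
    refine squeeze_zero (fun _ => norm_nonneg _) (fun N => ?_) hbound
    have e1 : w (κ N) - γ • a = (w (κ N) - ce a b r (κ N)) + ((r (κ N) - γ) • a +
        hh (κ N) • b) := by
      unfold ce
      module
    rw [e1]
    refine (norm_add_le _ _).trans ?_
    have e2 : ‖(r (κ N) - γ) • a + hh (κ N) • b‖ ≤ |r (κ N) - γ| + hh (κ N) := by
      refine (norm_add_le _ _).trans ?_
      rw [norm_smul, norm_smul, h.na, h.nb, mul_one, mul_one, Real.norm_eq_abs,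
        Real.norm_eq_abs, abs_of_pos (hh_pos _)]
    have e3 := hw (κ N)
    have e4 := hr N
    linarith
  have hmem : ∀ γ : ℝ, |γ| ≤ 1 / 50 → γ • a ∈ e.target := by
    intro γ hγ
    refine he ?_
    rw [mem_closedBall_zero_iff, norm_smul, h.na, mul_one, Real.norm_eq_abs]
    linarith
  have t1 : Tendsto (fun N => g (e.symm (v (κ N)))) atTop (𝓝 (g (e.symm (α • a)))) := by
    refine (g.continuous.tendsto _).comp ?_
    exact (e.continuousAt_symm (hmem α hα)).tendsto.comp (key s α v hv hκ2)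
  have t2 : Tendsto (fun N => e.symm (u (κ N))) atTop (𝓝 (e.symm (β • a))) :=
    (e.continuousAt_symm (hmem β hβ)).tendsto.comp (key t β u hu hκ3)
  have t3 : (fun N => g (e.symm (v (κ N)))) = fun N => e.symm (u (κ N)) := by
    funext N
    exact hgvu (κ N)
  rw [t3] at t1
  exact tendsto_nhds_unique t1 t2

end Pool.Agent.TH724.CJ
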