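import Pool.Agent.TH724.CJ.Small

/-!
# Products of disjoint twists
-/

set_option autoImplicit false

open Filter Topology Set
open scoped RealInnerProductSpace ContDiff

namespace Pool.Agent.TH724.CJ

variable {E : Type*} [NormedAddCommGroup E] [InnerProductSpace ℝ E] {a b : E}

/-- Radii. -/
noncomputable def dl (k : ℕ) : ℝ := (1 / 2) ^ (k + 5)

/-- Heights. -/
noncomputable def hh (k : ℕ) : ℝ := (1 / 2) ^ (k + 2)

lemma dl_pos (k : ℕ) : 0 < dl k := by
  unfold dl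
  positivity

lemma hh_pos (k : ℕ) : 0 < hh k := by
  unfold hh
  positivity

lemma dl_le (k : ℕ) : dl k ≤ 1 / 32 := by
  unfold dl
  calc ((1 : ℝ) / 2) ^ (k + 5) ≤ (1 / 2) ^ 5 :=
        pow_le_pow_of_le_one (by norm_num) (by norm_num) (by omega)
    _ = 1 / 32 := by norm_num

lemma hh_le (k : ℕ) : hh k ≤ 1 / 4 := by
  unfold hh
  calc ((1 : ℝ) / 2) ^ (k + 2) ≤ (1 / 2) ^ 2 :=
        pow_le_pow_of_le_one (by norm_num) (by norm_num) (by omega)
    _ = 1 / 4 := by norm_num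

lemma hh_dl (k : ℕ) : hh k = 8 * dl k := by
  unfold hh dl
  rw [pow_add, pow_add]
  ring

lemma dl_lt {k j : ℕ} (h : k < j) : dl j ≤ dl k / 2 := by
  have h1 : dl j ≤ dl (k + 1) := by
    unfold dl
    exact pow_le_pow_of_le_one (by norm_num) (by norm_num) (by omega)
  have h2 : dl (k + 1) = dl k / 2 := by
    unfold dl
    rw [show k + 1 + 5 = (k + 5) + 1 by ring, pow_succ]
    ring
  rw [← h2]
  exact h1

lemma hh_sep_lt {k j : ℕ} (hkj : k < j) {r : ℝ} (h1 : |r - hh k| < 2 * dl k)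
    (h2 : |r - hh j| < 2 * dl j) : False := by
  rw [hh_dl] at h1 h2
  have h3 := dl_lt hkj
  have h4 := (abs_lt.1 h1).1
  have h5 := (abs_lt.1 h2).2
  have h6 := dl_pos k
  linarith

lemma hh_sep {k j : ℕ} {r : ℝ} (h1 : |r - hh k| < 2 * dl k)
    (h2 : |r - hh j| < 2 * dl j) : k = j := by
  rcases lt_trichotomy k j with h | h | h
  · exact (hh_sep_lt h h1 h2).elim
  · exact h
  · exact (hh_sep_lt h h2 h1).elim

lemma ON.na (h : ON a b) : ‖a‖ = 1 := by
  have := h.aa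
  rw [real_inner_self_eq_norm_sq] at this
  have h1 := norm_nonneg a
  nlinarith

lemma ON.nb (h : ON a b) : ‖b‖ = 1 := by
  have := h.bb
  rw [real_inner_self_eq_norm_sq] at this
  have h1 := norm_nonneg b
  nlinarith

/-- Centers. -/
noncomputable def ce (a b : E) (s : ℕ → ℝ) (k : ℕ) : E := s k • a + hh k • b

lemma inner_b_ce (h : ON a b) (s : ℕ → ℝ) (k : ℕ) : ⟪b, ce a b s k⟫ = hh k := by
  unfold ce
  rw [inner_add_right, inner_smul_right, inner_smul_right, h.ba, h.bb]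
  ring

lemma inner_a_ce (h : ON a b) (s : ℕ → ℝ) (k : ℕ) : ⟪a, ce a b s k⟫ = s k := by
  unfold ce
  rw [inner_add_right, inner_smul_right, inner_smul_right, h.ab, h.aa]
  ring

lemma abs_inner_b (h : ON a b) (v : E) : |⟪b, v⟫| ≤ ‖v‖ := by
  have := abs_real_inner_le_norm b v
  rwa [h.nb, one_mul] at this

lemma abs_inner_a (h : ON a b) (v : E) : |⟪a, v⟫| ≤ ‖v‖ := by
  have := abs_real_inner_le_norm a v
  rwa [h.na, one_mul] at this

lemma b_near (h : ON a b) {s : ℕ → ℝ} {k : ℕ} {v : E} {r : ℝ} (hv : ‖v - ce a b s k‖ < r) :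
    |⟪b, v⟫ - hh k| < r := by
  have h1 := abs_inner_b h (v - ce a b s k)
  rw [inner_sub_right, inner_b_ce h] at h1
  exact h1.trans_lt hv

lemma sep (h : ON a b) {s t : ℕ → ℝ} {k j : ℕ} {v : E} (h1 : ‖v - ce a b s k‖ < 2 * dl k)
    (h2 : ‖v - ce a b t j‖ < 2 * dl j) : k = j :=
  hh_sep (b_near h h1) (b_near h h2)

lemma norm_ce_le (h : ON a b) {s : ℕ → ℝ} {k : ℕ} (hs : |s k| ≤ 1 / 50) :
    ‖ce a b s k‖ ≤ 1 / 50 + 1 / 4 := by
  unfold ce
  refine (norm_add_le _ _).trans ?_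
  rw [norm_smul, norm_smul, h.na, h.nb, mul_one, mul_one, Real.norm_eq_abs, Real.norm_eq_abs,
    abs_of_pos (hh_pos k)]
  exact add_le_add hs (hh_le k)

/-- The product of the twists. -/
noncomputable def FF (a b : E) (τ s : ℕ → ℝ) (v : E) : E :=
  v + ∑' k, ds a b (τ k) (dl k) (v - ce a b s k)

lemma FF_in (h : ON a b) (τ s : ℕ → ℝ) {k : ℕ} {v : E} (hv : ‖v - ce a b s k‖ < 2 * dl k) :
    FF a b τ s v = ce a b s k + tw a b (τ k) (dl k) (v - ce a b s k) := by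
  unfold FF
  rw [tsum_eq_single k, tw_eq]
  · abel
  · intro j hj
    refine ds_out (dl_pos j) _ ?_
    by_contra hlt
    rw [not_le] at hlt
    exact hj (sep h (hlt.trans (by linarith [dl_pos j])) hv)

lemma FF_out (τ s : ℕ → ℝ) {v : E} (hv : ∀ k, dl k ≤ ‖v - ce a b s k‖) :
    FF a b τ s v = v := by
  unfold FF
  have : ∀ k, ds a b (τ k) (dl k) (v - ce a b s k) = 0 := fun k => ds_out (dl_pos k) _ (hv k)
  simp [this]

lemma FF_big (h : ON a b) (τ : ℕ → ℝ) {s : ℕ → ℝ} (hs : ∀ k, |s k| ≤ 1 / 50) {v : E}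
    (hv : 1 ≤ ‖v‖) : FF a b τ s v = v := by
  refine FF_out τ s fun k => ?_
  have h1 := norm_ce_le h (hs k)
  have h2 := dl_le k
  have h3 := norm_sub_norm_le v (ce a b s k)
  linarith

lemma norm_FF_sub (h : ON a b) (τ s : ℕ → ℝ) {k : ℕ} {v : E}
    (hv : ‖v - ce a b s k‖ < 2 * dl k) : ‖FF a b τ s v - ce a b s k‖ = ‖v - ce a b s k‖ := by
  rw [FF_in h τ s hv, add_sub_cancel_left, norm_tw h]

lemma FF_neg (h : ON a b) (τ s : ℕ → ℝ) (v : E) :
    FF a b τ s (FF a b (-τ) s v) = v := by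
  by_cases hv : ∃ k, ‖v - ce a b s k‖ < 2 * dl k
  · obtain ⟨k, hk⟩ := hv
    have h1 := norm_FF_sub h (-τ) s hk
    rw [FF_in h τ s (by rw [h1]; exact hk), FF_in h (-τ) s hk, add_sub_cancel_left, tw_tw h,
      Pi.neg_apply, add_neg_cancel, tw_zero]
    abel
  · push Not at hv
    have h1 : ∀ k, dl k ≤ ‖v - ce a b s k‖ := fun k => by
      have := hv k
      have := dl_pos k
      linarith
    rw [FF_out _ _ h1, FF_out _ _ h1]

lemma FF_neg' (h : ON a b) (τ s : ℕ → ℝ) (v : E) :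
    FF a b (-τ) s (FF a b τ s v) = v := by
  have := FF_neg h (-τ) s v
  rwa [neg_neg] at this

lemma FF_iter (h : ON a b) (τ s : ℕ → ℝ) {k : ℕ} {v : E} (hv : ‖v - ce a b s k‖ < 2 * dl k)
    (m : ℕ) : (FF a b τ s)^[m] v = ce a b s k + tw a b (m * τ k) (dl k) (v - ce a b s k) := by
  induction m with
  | zero => simp [tw_zero]
  | succ m ih =>
    rw [Function.iterate_succ_apply', ih]
    have h1 : ‖ce a b s k + tw a b (m * τ k) (dl k) (v - ce a b s k) - ce a b s k‖ < 2 * dl k := by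
      rw [add_sub_cancel_left, norm_tw h]
      exact hv
    rw [FF_in h τ s h1, add_sub_cancel_left, tw_tw h]
    congr 2
    push_cast
    ring

/-- Good periods. -/
structure Good (a b : E) (P : ℕ → ℕ) : Prop where
  two : ∀ k, 2 ≤ P k
  inj : Function.Injective P
  pos : ∀ k, ∀ m ≤ k, ∀ v,
    ‖iteratedFDeriv ℝ m (ds a b (2 * Real.pi / P k) (dl k)) v‖ ≤ (1 / 2) ^ k
  neg : ∀ k, ∀ m ≤ k, ∀ v,
    ‖iteratedFDeriv ℝ m (ds a b (-(2 * Real.pi / P k)) (dl k)) v‖ ≤ (1 / 2) ^ k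

lemma exists_good [FiniteDimensional ℝ E] (a b : E) : ∃ P, Good a b P := by
  have h1 : ∀ k : ℕ, ∀ᶠ P : ℕ in atTop, 2 ≤ P ∧ ∀ m ≤ k, ∀ v,
      ‖iteratedFDeriv ℝ m (ds a b (2 * Real.pi / P) (dl k)) v‖ ≤ (1 / 2) ^ k ∧
      ‖iteratedFDeriv ℝ m (ds a b (-(2 * Real.pi / P)) (dl k)) v‖ ≤ (1 / 2) ^ k := fun k =>
    (eventually_ge_atTop 2).and (exists_P a b (dl_pos k) k (by positivity))
  obtain ⟨P, hP, hP'⟩ := extraction_forall_of_eventually h1
  exact ⟨P, fun k => (hP' k).1, hP.injective, fun k m hm v => ((hP' k).2 m hm v).1,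
    fun k m hm v => ((hP' k).2 m hm v).2⟩

/-- The angles. -/
noncomputable def ta (P : ℕ → ℕ) (k : ℕ) : ℝ := 2 * Real.pi / P k

lemma contDiff_FF_of [CompleteSpace E] {τ : ℕ → ℝ}
    (hτ : ∀ k, ∀ m ≤ k, ∀ v, ‖iteratedFDeriv ℝ m (ds a b (τ k) (dl k)) v‖ ≤ (1 / 2) ^ k)
    (s : ℕ → ℝ) : ContDiff ℝ ∞ (FF a b τ s) := by
  unfold FF
  refine contDiff_id.add ?_
  refine contDiff_tsum_of_eventually (N := (⊤ : ℕ∞)) (v := fun _ k => (1 / 2 : ℝ) ^ k)
    (fun k => ?_) (fun _ _ => ?_) fun m _ => ?_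
  · exact (contDiff_ds a b (τ k) (dl k)).comp (contDiff_id.sub contDiff_const)
  · exact summable_geometric_two
  · rw [Nat.cofinite_eq_atTop]
    filter_upwards [eventually_ge_atTop m] with k hk v
    rw [iteratedFDeriv_comp_sub]
    exact hτ k m hk _

lemma contDiff_FF [CompleteSpace E] {P : ℕ → ℕ} (hP : Good a b P) (s : ℕ → ℝ) :
    ContDiff ℝ ∞ (FF a b (ta P) s) :=
  contDiff_FF_of hP.pos s

lemma contDiff_FF_neg [CompleteSpace E] {P : ℕ → ℕ} (hP : Good a b P) (s : ℕ → ℝ) :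
    ContDiff ℝ ∞ (FF a b (-ta P) s) :=
  contDiff_FF_of hP.neg s

lemma summable_dl : Summable fun k => 2 * dl k := by
  unfold dl
  have : Summable fun k : ℕ => 2 * ((1 / 2 : ℝ) ^ k * (1 / 2) ^ 5) :=
    (summable_geometric_two.mul_right _).mul_left _
  refine this.congr fun k => ?_
  rw [pow_add]

lemma continuous_FF_param [CompleteSpace E] (h : ON a b) {X : Type*} [TopologicalSpace X] (τ : ℕ → ℝ)
    {s : X → ℕ → ℝ} (hs : ∀ k, Continuous fun x => s x k) (v : E) :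
    Continuous fun x => FF a b τ (s x) v := by
  unfold FF
  refine continuous_const.add (continuous_tsum (u := fun k => 2 * dl k) (fun k => ?_) summable_dl
    fun k x => norm_ds_le h (dl_pos k) _ _)
  refine (contDiff_ds a b (τ k) (dl k)).continuous.comp (continuous_const.sub ?_)
  unfold ce
  exact ((hs k).smul continuous_const).add continuous_const

end Pool.Agent.TH724.CJ
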