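import Pool.Agent.TH724.CJ.Fam

/-!
# The periodic points of the products of twists
-/

set_option autoImplicit false

open Filter Topology Set
open scoped RealInnerProductSpace ContDiff

namespace Pool.Agent.TH724.CJ

variable {E : Type*} [NormedAddCommGroup E] [InnerProductSpace ℝ E] {a b : E}

lemma dvd_of_int {P m : ℕ} (hP : 2 ≤ P) {n : ℤ}
    (hn : (n : ℝ) * (2 * Real.pi) = m * (2 * Real.pi / P)) : P ∣ m := by
  have h1 : (P : ℝ) ≠ 0 := by
    have : (2 : ℝ) ≤ P := by exact_mod_cast hP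
    linarith
  have h2 : (n : ℝ) * P = m := by
    have := Real.pi_pos
    field_simp at hn
    linarith
  have h3 : (P : ℤ) ∣ (m : ℤ) := ⟨n, by
    have : ((n * P : ℤ) : ℝ) = ((m : ℤ) : ℝ) := by
      push_cast
      exact h2
    have := Int.cast_injective this
    linarith⟩
  exact_mod_cast h3

lemma per_core (h : ON a b) {P : ℕ → ℕ} (h2 : ∀ k, 2 ≤ P k) (s : ℕ → ℝ) {k : ℕ} {v : E}
    (hv : ‖v - ce a b s k‖ < dl k / 2) (hJ : J a b (v - ce a b s k) ≠ 0) :
    Function.minimalPeriod (FF a b (ta P) s) v = P k := by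
  have h3 : ‖v - ce a b s k‖ < 2 * dl k := hv.trans (by linarith [dl_pos k])
  have h4 := ang_core (dl_pos k) hv.le
  refine Nat.dvd_antisymm ?_ ?_
  · apply Function.IsPeriodicPt.minimalPeriod_dvd
    show (FF a b (ta P) s)^[P k] v = v
    rw [FF_iter h _ _ h3]
    unfold tw ta
    have h5 : (P k : ℝ) ≠ 0 := by
      have : (2 : ℝ) ≤ P k := by exact_mod_cast h2 k
      linarith
    rw [h4, mul_one, mul_div_cancel₀ _ h5]
    have := Rot_int (a := a) (b := b) 1 (v - ce a b s k)
    rw [Int.cast_one, one_mul] at this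
    rw [this]
    abel
  · have h6 : (FF a b (ta P) s)^[Function.minimalPeriod (FF a b (ta P) s) v] v = v :=
      Function.isPeriodicPt_minimalPeriod _ _
    rw [FF_iter h _ _ h3] at h6
    have h7 : tw a b (Function.minimalPeriod (FF a b (ta P) s) v * ta P k) (dl k)
        (v - ce a b s k) = v - ce a b s k := eq_sub_of_add_eq' h6
    unfold tw at h7
    obtain ⟨n, hn⟩ := Rot_eq_self h h7 hJ
    rw [h4, mul_one] at hn
    exact dvd_of_int (h2 k) hn

lemma per_open (h : ON a b) {P : ℕ → ℕ} (h2 : ∀ k, 2 ≤ P k) (hinj : Function.Injective P)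
    (s : ℕ → ℝ) {k : ℕ} {U : Set E} (hU : IsOpen U)
    (hUP : ∀ v ∈ U, Function.minimalPeriod (FF a b (ta P) s) v = P k) {v : E} (hv : v ∈ U) :
    ‖v - ce a b s k‖ < dl k := by
  by_contra hcon
  have hfix : FF a b (ta P) s v ≠ v := by
    intro h3
    have h4 : Function.minimalPeriod (FF a b (ta P) s) v = 1 :=
      Function.minimalPeriod_eq_one_iff_isFixedPt.2 h3
    have h5 := hUP v hv
    have h6 := h2 k
    omega
  have hex : ∃ j, ‖v - ce a b s j‖ < dl j := by
    by_contra hno
    push Not at hno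
    exact hfix (FF_out _ _ hno)
  obtain ⟨j, hj⟩ := hex
  have hjk : j ≠ k := by
    rintro rfl
    exact hcon hj
  have hj2 : ‖v - ce a b s j‖ < 2 * dl j := hj.trans (by linarith [dl_pos j])
  have hJ : J a b (v - ce a b s j) ≠ 0 := by
    intro h3
    apply hfix
    rw [FF_in h _ _ hj2, tw_eq]
    unfold ds
    rw [h3]
    simp
  rcases lt_or_ge ‖v - ce a b s j‖ (dl j / 2) with hc | hc
  · have h4 := per_core h h2 s hc hJ
    rw [hUP v hv] at h4
    exact hjk (hinj h4.symm)
  -- the ray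
  obtain ⟨w, hw⟩ : ∃ w, w = v - ce a b s j := ⟨_, rfl⟩
  rw [← hw] at hj hj2 hJ hc
  have hw0 : 0 < ‖w‖ := by
    have := dl_pos j
    linarith
  have hcont : Continuous fun t : ℝ => ce a b s j + t • w := by fun_prop
  have hev : ∀ᶠ t in 𝓝 (1 : ℝ), ce a b s j + t • w ∈ U ∧ ‖t • w‖ < 2 * dl j := by
    refine Filter.Eventually.and ?_ ?_
    · refine hcont.continuousAt.eventually_mem (hU.mem_nhds ?_)
      rw [one_smul, hw]
      simpa using hv
    · have : Continuous fun t : ℝ => ‖t • w‖ := by fun_prop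
      refine this.continuousAt.eventually (gt_mem_nhds ?_)
      show ‖(1 : ℝ) • w‖ < _
      rw [one_smul]
      exact hj2
  obtain ⟨ε, hε, hball⟩ := Metric.eventually_nhds_iff.1 hev
  have hint : ∀ t ∈ Icc (1 : ℝ) (1 + ε / 2), ∃ n : ℤ,
      (n : ℝ) * (2 * Real.pi) = P k * ta P j * ang (dl j) (t • w) := by
    intro t ht
    obtain ⟨h5, h6⟩ := hball (y := t) (by
      rw [Real.dist_eq, abs_lt]
      constructor <;> linarith [ht.1, ht.2])
    have h7 : ‖ce a b s j + t • w - ce a b s j‖ < 2 * dl j := by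
      rwa [add_sub_cancel_left]
    have h8 : (FF a b (ta P) s)^[P k] (ce a b s j + t • w) = ce a b s j + t • w := by
      rw [← hUP _ h5]
      exact Function.isPeriodicPt_minimalPeriod _ _
    rw [FF_iter h _ _ h7, add_sub_cancel_left] at h8
    have h9 := add_left_cancel h8
    unfold tw at h9
    refine Rot_eq_self h h9 ?_
    rw [map_smul]
    exact smul_ne_zero (by linarith [ht.1]) hJ
  -- the angle function
  let φ : ℝ → ℝ := fun t => P k * ta P j * ang (dl j) (t • w) / (2 * Real.pi)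
  have hφc : Continuous φ := by
    have h10 : Continuous fun t : ℝ => ang (dl j) (t • w) := by
      unfold ang
      refine contDiff_gg.continuous.comp ?_
      fun_prop
    exact (continuous_const.mul h10).div_const _
  have hφi : ∀ t ∈ Icc (1 : ℝ) (1 + ε / 2), ∃ n : ℤ, (n : ℝ) = φ t := by
    intro t ht
    obtain ⟨n, hn⟩ := hint t ht
    refine ⟨n, ?_⟩
    have := Real.pi_pos
    rw [eq_div_iff (by positivity), hn]
  have hφlt : φ (1 + ε / 2) < φ 1 := by
    have h11 : ang (dl j) ((1 + ε / 2) • w) < ang (dl j) ((1 : ℝ) • w) := by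
      unfold ang
      rw [one_smul, norm_smul, Real.norm_eq_abs, abs_of_pos (by linarith)]
      have hd := dl_pos j
      refine gg_lt ?_ ?_ ?_
      · rw [lt_div_iff₀ (by positivity), mul_pow]
        have h16 : dl j / 2 * (dl j / 2) ≤ ‖w‖ * ‖w‖ := mul_le_mul hc hc (by positivity) hw0.le
        have h17 : 0 < ε * (‖w‖ * ‖w‖) := by positivity
        have h18 : 0 < ε ^ 2 * (‖w‖ * ‖w‖) := by positivity
        nlinarith
      · rw [div_lt_one (by positivity)]
        exact pow_lt_pow_left₀ hj hw0.le (by norm_num)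
      · refine div_lt_div_of_pos_right ?_ (by positivity)
        refine pow_lt_pow_left₀ ?_ hw0.le (by norm_num)
        nlinarith
    have hπ := Real.pi_pos
    have hPk : (0 : ℝ) < P k := by
      have : (2 : ℝ) ≤ P k := by exact_mod_cast h2 k
      linarith
    have hta : 0 < ta P j := by
      have : (2 : ℝ) ≤ P j := by exact_mod_cast h2 j
      unfold ta
      positivity
    show _ / _ < _ / _
    refine div_lt_div_of_pos_right ?_ (by positivity)
    exact mul_lt_mul_of_pos_left h11 (mul_pos hPk hta)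
  obtain ⟨n1, hn1⟩ := hφi 1 ⟨le_rfl, by linarith⟩
  obtain ⟨n2, hn2⟩ := hφi (1 + ε / 2) ⟨by linarith, le_rfl⟩
  have h12 : n2 + 1 ≤ n1 := by
    have : (n2 : ℝ) < n1 := by rw [hn1, hn2]; exact hφlt
    exact_mod_cast this
  have h13 : (n2 : ℝ) + 1 ≤ n1 := by exact_mod_cast h12
  have h14 : φ 1 - 1 / 2 ∈ Icc (φ (1 + ε / 2)) (φ 1) := by
    rw [← hn1, ← hn2]
    constructor <;> linarith
  obtain ⟨t, ht, ht'⟩ := intermediate_value_Icc' (by linarith : (1 : ℝ) ≤ 1 + ε / 2)
    hφc.continuousOn h14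
  obtain ⟨n3, hn3⟩ := hφi t ht
  rw [ht', ← hn1] at hn3
  have h15 : (2 * n3 : ℤ) = 2 * n1 - 1 := by
    have : (2 * n3 : ℝ) = 2 * n1 - 1 := by rw [hn3]; ring
    exact_mod_cast this
  omega

end Pool.Agent.TH724.CJ
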