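import Mathlib

/-!
# Rotations in a plane and twist maps
-/

set_option autoImplicit false

open Filter Topology Set
open scoped RealInnerProductSpace ContDiff

namespace Pool.Agent.TH724.CJ

variable {E : Type*} [NormedAddCommGroup E] [InnerProductSpace ℝ E]

/-- An orthonormal pair. -/
structure ON (a b : E) : Prop where
  aa : ⟪a, a⟫ = 1
  bb : ⟪b, b⟫ = 1
  ab : ⟪a, b⟫ = 0

/-- The generator of the rotations in the plane of `a, b`. -/
noncomputable def J (a b : E) : E →L[ℝ] E :=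
  (innerSL ℝ a).smulRight b - (innerSL ℝ b).smulRight a

lemma J_apply (a b v : E) : J a b v = ⟪a, v⟫ • b - ⟪b, v⟫ • a := by
  simp [J]

variable {a b : E}

lemma ON.ba (h : ON a b) : ⟪b, a⟫ = 0 := by
  rw [real_inner_comm]
  exact h.ab

lemma JJ (h : ON a b) (v : E) : J a b (J a b v) = -(⟪a, v⟫ • a) - ⟪b, v⟫ • b := by
  rw [J_apply a b v, J_apply]
  simp only [inner_sub_right, inner_smul_right, h.aa, h.bb, h.ab, h.ba]
  simp only [mul_zero, mul_one, zero_sub, sub_zero, neg_smul]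
  abel

lemma JJJ (h : ON a b) (v : E) : J a b (J a b (J a b v)) = -(J a b v) := by
  rw [JJ h, J_apply a b v]
  simp only [inner_sub_right, inner_smul_right, h.aa, h.bb, h.ab, h.ba]
  simp only [mul_zero, mul_one, zero_sub, sub_zero, neg_smul, neg_neg, neg_sub]

/-- The squared length of the projection to the plane. -/
noncomputable def nn (a b v : E) : ℝ := ⟪a, v⟫ ^ 2 + ⟪b, v⟫ ^ 2

lemma nn_nonneg (v : E) : 0 ≤ nn a b v := by
  unfold nn
  positivity

lemma J_eq_zero (h : ON a b) {v : E} (hv : J a b v = 0) : nn a b v = 0 := by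
  have h1 : ⟪a, J a b v⟫ = 0 := by rw [hv, inner_zero_right]
  have h2 : ⟪b, J a b v⟫ = 0 := by rw [hv, inner_zero_right]
  rw [J_apply] at h1 h2
  simp only [inner_sub_right, inner_smul_right, h.aa, h.bb, h.ab, h.ba] at h1 h2
  unfold nn
  have h3 : ⟪b, v⟫ = 0 := by linarith
  have h4 : ⟪a, v⟫ = 0 := by linarith
  rw [h3, h4]
  norm_num

lemma J_eq_zero_of (v : E) (hv : nn a b v = 0) : J a b v = 0 := by
  unfold nn at hv
  have h3 : ⟪b, v⟫ = 0 := by nlinarith [sq_nonneg ⟪a, v⟫, sq_nonneg ⟪b, v⟫]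
  have h4 : ⟪a, v⟫ = 0 := by nlinarith [sq_nonneg ⟪a, v⟫, sq_nonneg ⟪b, v⟫]
  rw [J_apply, h3, h4]
  simp

/-- Rotation by the angle `θ`. -/
noncomputable def Rot (a b : E) (θ : ℝ) (v : E) : E :=
  v + (Real.sin θ • J a b v + (1 - Real.cos θ) • J a b (J a b v))

lemma J_Rot (h : ON a b) (θ : ℝ) (v : E) :
    J a b (Rot a b θ v) = Real.cos θ • J a b v + Real.sin θ • J a b (J a b v) := by
  unfold Rot
  simp only [map_add, map_smul, JJJ h]
  module

lemma Rot_add (h : ON a b) (θ φ : ℝ) (v : E) :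
    Rot a b θ (Rot a b φ v) = Rot a b (θ + φ) v := by
  have h1 : J a b (J a b (Rot a b φ v)) =
      Real.cos φ • J a b (J a b v) - Real.sin φ • J a b v := by
    rw [J_Rot h]
    simp only [map_add, map_smul, JJJ h]
    module
  have h2 : Rot a b θ (Rot a b φ v) = Rot a b φ v +
      (Real.sin θ • J a b (Rot a b φ v) + (1 - Real.cos θ) • J a b (J a b (Rot a b φ v))) := rfl
  rw [h2, h1, J_Rot h]
  unfold Rot
  rw [Real.sin_add, Real.cos_add]
  module

lemma Rot_zero (v : E) : Rot a b 0 v = v := by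
  simp [Rot]

lemma norm_sq_disp (h : ON a b) (θ : ℝ) (v : E) :
    ‖Real.sin θ • J a b v + (1 - Real.cos θ) • J a b (J a b v)‖ ^ 2 =
      (Real.sin θ ^ 2 + (1 - Real.cos θ) ^ 2) * nn a b v := by
  rw [← real_inner_self_eq_norm_sq, JJ h, J_apply]
  unfold nn
  simp only [inner_sub_right, inner_smul_right, inner_add_right, inner_sub_left, inner_smul_left,
    inner_add_left, inner_neg_left, inner_neg_right, h.aa, h.bb, h.ab, h.ba]
  simp
  ring

lemma norm_Rot (h : ON a b) (θ : ℝ) (v : E) : ‖Rot a b θ v‖ = ‖v‖ := by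
  have h1 : ‖Rot a b θ v‖ ^ 2 = ‖v‖ ^ 2 := by
    unfold Rot
    rw [norm_add_sq_real, norm_sq_disp h, JJ h, J_apply]
    unfold nn
    simp only [inner_sub_right, inner_smul_right, inner_add_right, inner_neg_right]
    rw [real_inner_comm a v, real_inner_comm b v]
    have := Real.sin_sq_add_cos_sq θ
    linear_combination (⟪a, v⟫ ^ 2 + ⟪b, v⟫ ^ 2) * this
  have h2 := norm_nonneg (Rot a b θ v)
  have h3 := norm_nonneg v
  exact (sq_eq_sq₀ h2 h3).1 h1

lemma Rot_eq_self (h : ON a b) {θ : ℝ} {v : E} (hv : Rot a b θ v = v) (hJ : J a b v ≠ 0) :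
    ∃ n : ℤ, (n : ℝ) * (2 * Real.pi) = θ := by
  have h1 : Real.sin θ • J a b v + (1 - Real.cos θ) • J a b (J a b v) = 0 := by
    unfold Rot at hv
    exact add_eq_left.1 hv
  have h2 := norm_sq_disp h θ v
  rw [h1, norm_zero] at h2
  have h3 : nn a b v ≠ 0 := fun h4 => hJ (J_eq_zero_of v h4)
  have h4 : Real.sin θ ^ 2 + (1 - Real.cos θ) ^ 2 = 0 := by
    rcases mul_eq_zero.1 (h2.symm.trans (by norm_num)) with h5 | h5
    · exact h5
    · exact absurd h5 h3
  have h5 : Real.cos θ = 1 := by nlinarith [sq_nonneg (Real.sin θ), sq_nonneg (1 - Real.cos θ)]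
  exact (Real.cos_eq_one_iff θ).1 h5

lemma Rot_int (n : ℤ) (v : E) : Rot a b (n * (2 * Real.pi)) v = v := by
  unfold Rot
  rw [Real.cos_int_mul_two_pi]
  have : Real.sin ((n : ℝ) * (2 * Real.pi)) = 0 := by
    have := Real.sin_add_int_mul_two_pi 0 n
    rw [zero_add, Real.sin_zero] at this
    exact this
  rw [this]
  simp

/-- The twist profile. -/
noncomputable def gg (t : ℝ) : ℝ := Real.smoothTransition ((1 - t) * (4 / 3))

lemma gg_core {t : ℝ} (h : t ≤ 1 / 4) : gg t = 1 :=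
  Real.smoothTransition.one_of_one_le (by linarith)

lemma gg_out {t : ℝ} (h : 1 ≤ t) : gg t = 0 :=
  Real.smoothTransition.zero_of_nonpos (by linarith)

lemma contDiff_gg : ContDiff ℝ ∞ gg := by
  unfold gg
  exact (Real.smoothTransition.contDiff (n := ⊤)).comp
    ((contDiff_const.sub contDiff_id).mul contDiff_const)

lemma expNeg_lt {x y : ℝ} (hy : 0 < y) (hxy : x < y) : expNegInvGlue x < expNegInvGlue y := by
  rcases le_or_gt x 0 with h | h
  · rw [expNegInvGlue.zero_of_nonpos h]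
    exact expNegInvGlue.pos_of_pos hy
  · unfold expNegInvGlue
    rw [if_neg (not_le.2 h), if_neg (not_le.2 hy)]
    apply Real.exp_lt_exp.2
    have := inv_strictAnti₀ h hxy
    linarith

lemma smooth_lt {x y : ℝ} (hy : 0 < y) (hx : x < 1) (hxy : x < y) :
    Real.smoothTransition x < Real.smoothTransition y := by
  unfold Real.smoothTransition
  have d1 := Real.smoothTransition.pos_denom x
  have d2 := Real.smoothTransition.pos_denom y
  rw [div_lt_div_iff₀ d1 d2]
  have h1 : expNegInvGlue x < expNegInvGlue y := expNeg_lt hy hxy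
  have h2 : expNegInvGlue (1 - y) < expNegInvGlue (1 - x) := expNeg_lt (by linarith) (by linarith)
  have h3 := expNegInvGlue.nonneg x
  have h4 := expNegInvGlue.nonneg (1 - y)
  have h5 : 0 < expNegInvGlue y := expNegInvGlue.pos_of_pos hy
  nlinarith

lemma gg_lt {s t : ℝ} (hs : 1 / 4 < t) (ht : s < 1) (hst : s < t) : gg t < gg s := by
  unfold gg
  refine smooth_lt ?_ ?_ ?_
  · linarith
  · linarith
  · linarith

/-- The angle of the twist. -/
noncomputable def ang (δ : ℝ) (v : E) : ℝ := gg (‖v‖ ^ 2 / δ ^ 2)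

/-- The twist map. -/
noncomputable def tw (a b : E) (τ δ : ℝ) (v : E) : E := Rot a b (τ * ang δ v) v

/-- The displacement of the twist map. -/
noncomputable def ds (a b : E) (τ δ : ℝ) (v : E) : E :=
  Real.sin (τ * ang δ v) • J a b v + (1 - Real.cos (τ * ang δ v)) • J a b (J a b v)

lemma tw_eq (τ δ : ℝ) (v : E) : tw a b τ δ v = v + ds a b τ δ v := rfl

lemma ang_norm {δ : ℝ} {v w : E} (h : ‖v‖ = ‖w‖) : ang δ v = ang δ w := by
  unfold ang
  rw [h]

lemma norm_tw (h : ON a b) (τ δ : ℝ) (v : E) : ‖tw a b τ δ v‖ = ‖v‖ := norm_Rot h _ _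

lemma tw_tw (h : ON a b) (τ τ' δ : ℝ) (v : E) :
    tw a b τ δ (tw a b τ' δ v) = tw a b (τ + τ') δ v := by
  have h1 : ang δ (tw a b τ' δ v) = ang δ v := ang_norm (norm_tw h _ _ _)
  unfold tw at h1 ⊢
  rw [h1, Rot_add h, add_mul]

lemma tw_zero (δ : ℝ) (v : E) : tw a b 0 δ v = v := by
  unfold tw
  rw [zero_mul, Rot_zero]

lemma tw_iter (h : ON a b) (τ δ : ℝ) (m : ℕ) (v : E) :
    (tw a b τ δ)^[m] v = tw a b (m * τ) δ v := by
  induction m with
  | zero => simp [tw_zero]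
  | succ m ih =>
    rw [Function.iterate_succ_apply', ih, tw_tw h]
    congr 1
    push_cast
    ring

lemma ang_out {δ : ℝ} (hδ : 0 < δ) {v : E} (hv : δ ≤ ‖v‖) : ang δ v = 0 := by
  unfold ang
  apply gg_out
  rw [le_div_iff₀ (by positivity), one_mul]
  exact pow_le_pow_left₀ hδ.le hv 2

lemma ang_core {δ : ℝ} (hδ : 0 < δ) {v : E} (hv : ‖v‖ ≤ δ / 2) : ang δ v = 1 := by
  unfold ang
  apply gg_core
  rw [div_le_iff₀ (by positivity)]
  have := pow_le_pow_left₀ (norm_nonneg v) hv 2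
  linarith [this]

lemma ds_out {δ : ℝ} (hδ : 0 < δ) (τ : ℝ) {v : E} (hv : δ ≤ ‖v‖) : ds a b τ δ v = 0 := by
  unfold ds
  rw [ang_out hδ hv]
  simp

lemma norm_ds_le (h : ON a b) {δ : ℝ} (hδ : 0 < δ) (τ : ℝ) (v : E) :
    ‖ds a b τ δ v‖ ≤ 2 * δ := by
  rcases le_or_gt δ ‖v‖ with h1 | h1
  · rw [ds_out hδ τ h1, norm_zero]
    positivity
  · have h2 : ds a b τ δ v = tw a b τ δ v - v := by
      rw [tw_eq]
      abel
    rw [h2]
    calc ‖tw a b τ δ v - v‖ ≤ ‖tw a b τ δ v‖ + ‖v‖ := norm_sub_le _ _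
      _ = ‖v‖ + ‖v‖ := by rw [norm_tw h]
      _ ≤ 2 * δ := by linarith

end Pool.Agent.TH724.CJ
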