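import Pool.Agent.TH724.CJ.Rot

/-!
# Small twists have small derivatives
-/

set_option autoImplicit false

open Filter Topology Set
open scoped RealInnerProductSpace ContDiff

namespace Pool.Agent.TH724.CJ

variable {E : Type*} [NormedAddCommGroup E] [InnerProductSpace ℝ E] {a b : E}

/-- The joint displacement. -/
noncomputable def Phi (a b : E) (δ : ℝ) (p : ℝ × E) : E := ds a b p.1 δ p.2

lemma contDiff_Phi (a b : E) (δ : ℝ) : ContDiff ℝ ∞ (Phi a b δ) := by
  have h1 : ContDiff ℝ ∞ fun p : ℝ × E => p.1 * ang δ p.2 := by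
    unfold ang
    refine contDiff_fst.mul (contDiff_gg.comp ?_)
    exact ((contDiff_norm_sq ℝ).comp contDiff_snd).div_const _
  have h2 : ContDiff ℝ ∞ fun p : ℝ × E => J a b p.2 := (J a b).contDiff.comp contDiff_snd
  have h3 : ContDiff ℝ ∞ fun p : ℝ × E => J a b (J a b p.2) := (J a b).contDiff.comp h2
  unfold Phi ds
  exact ((Real.contDiff_sin.comp h1).smul h2).add
    ((contDiff_const.sub (Real.contDiff_cos.comp h1)).smul h3)

lemma contDiff_ds (a b : E) (τ δ : ℝ) : ContDiff ℝ ∞ (ds a b τ δ) := by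
  have h1 : ds a b τ δ = Phi a b δ ∘ fun v => (τ, v) := by
    funext v
    rfl
  have h2 : ContDiff ℝ ∞ fun v : E => (τ, v) := contDiff_const.prodMk contDiff_id
  rw [h1]
  exact (contDiff_Phi a b δ).comp h2

lemma iter_eq (a b : E) (τ δ : ℝ) (m : ℕ) (v : E) :
    iteratedFDeriv ℝ m (ds a b τ δ) v =
      (iteratedFDeriv ℝ m (Phi a b δ) (τ, v)).compContinuousLinearMap
        (fun _ => ContinuousLinearMap.inr ℝ ℝ E) := by
  have h1 : ds a b τ δ = (fun z => Phi a b δ ((τ, 0) + z)) ∘ (ContinuousLinearMap.inr ℝ ℝ E) := by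
    funext w
    simp [Phi]
  have h2 : ContDiff ℝ ∞ fun z => Phi a b δ ((τ, 0) + z) :=
    (contDiff_Phi a b δ).comp (contDiff_const.add contDiff_id)
  rw [h1, ContinuousLinearMap.iteratedFDeriv_comp_right _ h2 v (i := m)
    (by exact_mod_cast le_top), iteratedFDeriv_comp_add_left]
  simp

lemma cont_iter (a b : E) (δ : ℝ) (m : ℕ) :
    Continuous fun p : ℝ × E => iteratedFDeriv ℝ m (ds a b p.1 δ) p.2 := by
  have h1 : Continuous (iteratedFDeriv ℝ m (Phi a b δ)) :=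
    (contDiff_Phi a b δ).continuous_iteratedFDeriv (by exact_mod_cast le_top)
  have h2 : (fun p : ℝ × E => iteratedFDeriv ℝ m (ds a b p.1 δ) p.2) = fun p =>
      ContinuousMultilinearMap.compContinuousLinearMapL
        (fun _ : Fin m => ContinuousLinearMap.inr ℝ ℝ E)
        (iteratedFDeriv ℝ m (Phi a b δ) p) := by
    funext p
    rw [iter_eq]
    rfl
  rw [h2]
  exact (ContinuousLinearMap.continuous _).comp h1

lemma small [FiniteDimensional ℝ E] (a b : E) {δ : ℝ} (hδ : 0 < δ) (m : ℕ) {ε : ℝ} (hε : 0 < ε) :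
    ∀ᶠ τ in 𝓝 (0 : ℝ), ∀ v, ‖iteratedFDeriv ℝ m (ds a b τ δ) v‖ ≤ ε := by
  haveI : ProperSpace E := FiniteDimensional.proper_real E
  have h1 : ∀ᶠ τ in 𝓝 (0 : ℝ), ∀ v ∈ Metric.closedBall (0 : E) δ,
      ‖iteratedFDeriv ℝ m (ds a b τ δ) v‖ ≤ ε := by
    refine (isCompact_closedBall (0 : E) δ).eventually_forall_of_forall_eventually
      (P := fun τ v => ‖iteratedFDeriv ℝ m (ds a b τ δ) v‖ ≤ ε) fun v _ => ?_
    have h2 : Continuous fun p : ℝ × E => ‖iteratedFDeriv ℝ m (ds a b p.1 δ) p.2‖ :=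
      (cont_iter a b δ m).norm
    have h3 : ‖iteratedFDeriv ℝ m (ds a b 0 δ) v‖ < ε := by
      have : ds a b 0 δ = fun _ => 0 := by
        funext w
        simp [ds]
      rw [this, iteratedFDeriv_fun_zero]
      simpa using hε
    have h4 := (h2.tendsto (0, v)).eventually (gt_mem_nhds h3)
    exact h4.mono fun z hz => hz.le
  filter_upwards [h1] with τ hτ v
  by_cases hv : v ∈ Metric.closedBall (0 : E) δ
  · exact hτ v hv
  · have h5 : ds a b τ δ =ᶠ[𝓝 v] fun _ => 0 := by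
      filter_upwards [Metric.isClosed_closedBall.isOpen_compl.mem_nhds hv] with w hw
      refine ds_out hδ τ ?_
      simp only [mem_compl_iff, Metric.mem_closedBall, dist_zero_right, not_le] at hw
      exact hw.le
    have h6 : iteratedFDeriv ℝ m (ds a b τ δ) v = 0 := by
      rw [(h5.iteratedFDeriv ℝ m).eq_of_nhds, iteratedFDeriv_fun_zero]
      rfl
    rw [h6, norm_zero]
    exact hε.le

/-- Good periods. -/
lemma exists_P [FiniteDimensional ℝ E] (a b : E) {δ : ℝ} (hδ : 0 < δ) (k : ℕ) {ε : ℝ}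
    (hε : 0 < ε) : ∀ᶠ P : ℕ in atTop, ∀ m ≤ k, ∀ v,
      ‖iteratedFDeriv ℝ m (ds a b (2 * Real.pi / P) δ) v‖ ≤ ε ∧
      ‖iteratedFDeriv ℝ m (ds a b (-(2 * Real.pi / P)) δ) v‖ ≤ ε := by
  have h1 : ∀ᶠ τ in 𝓝 (0 : ℝ), ∀ m ≤ k, ∀ v, ‖iteratedFDeriv ℝ m (ds a b τ δ) v‖ ≤ ε := by
    have : ∀ᶠ τ in 𝓝 (0 : ℝ), ∀ m ∈ Finset.range (k + 1),
        ∀ v, ‖iteratedFDeriv ℝ m (ds a b τ δ) v‖ ≤ ε := by
      rw [eventually_all_finset]
      exact fun m _ => small a b hδ m hε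
    filter_upwards [this] with τ hτ m hm
    exact hτ m (Finset.mem_range.2 (by omega))
  have h2 : Tendsto (fun P : ℕ => 2 * Real.pi / (P : ℝ)) atTop (𝓝 0) :=
    tendsto_const_div_atTop_nhds_zero_nat _
  have h3 : Tendsto (fun P : ℕ => -(2 * Real.pi / (P : ℝ))) atTop (𝓝 0) := by
    simpa using h2.neg
  filter_upwards [h2.eventually h1, h3.eventually h1] with P hP hP' m hm v
  exact ⟨hP m hm v, hP' m hm v⟩

end Pool.Agent.TH724.CJ
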